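import Mathlib

/-!
# MP_b56e9d_an: `(T,T)` need not have a commuting invertible compact perturbation

Let `T` be the backward shift on `ℓ²(ℕ)`. If `K₁, K₂` are compact and `A = T + K₁` commutes with
`T + K₂`, put `K = K₂ - K₁`; `K` is compact and commutes with `A`. For every `c` the operator
`A + cK` is a compact perturbation of `T`, so it has a non-zero finite dimensional kernel, which
contains an eigenvector `v_c` of `K`: `K v_c = λ_c v_c`, `A v_c = -c λ_c v_c`. For distinct `c` these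
are linearly independent and compactness forces `λ_{c_n} → 0` along a subsequence for `c_n = 1/(n+1)`;
then `A v → 0`, `K v → 0` for unit vectors `v`, and a limit is a common kernel vector of
`T + K₁` and `T + K₂`. So the pair is never invertible.
-/

open Filter Topology

namespace Pool.Agent.Results.MP_b56e9d_an.NotAlways

section defs

variable {H : Type*} [NormedAddCommGroup H] [InnerProductSpace ℂ H]

/-- `T` is a Fredholm operator: closed range, finite-dimensional kernel and cokernel. -/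
structure IsFredholm (T : H →L[ℂ] H) : Prop where
  isClosed_range : IsClosed (Set.range T)
  finite_ker : FiniteDimensional ℂ (T : H →ₗ[ℂ] H).ker
  finite_coker : FiniteDimensional ℂ (H ⧸ (T : H →ₗ[ℂ] H).range)

/-- The boundary map `D⁰ x = S₁ x ⊕ S₂ x` of the Koszul complex. -/
def D0 (S₁ S₂ : H →L[ℂ] H) (x : H) : H × H := (S₁ x, S₂ x)

/-- The boundary map `D¹ (x ⊕ y) = -S₂ x + S₁ y` of the Koszul complex. -/
def D1 (S₁ S₂ : H →L[ℂ] H) (p : H × H) : H := -(S₂ p.1) + S₁ p.2

/-- The Koszul complex `0 → H → H ⊕ H → H → 0` of the pair `(S₁, S₂)` is exact. -/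
def KoszulExact (S₁ S₂ : H →L[ℂ] H) : Prop :=
  Function.Injective (D0 S₁ S₂) ∧ (∀ p, D1 S₁ S₂ p = 0 ↔ ∃ x, D0 S₁ S₂ x = p) ∧
    Function.Surjective (D1 S₁ S₂)

/-- There are compact `K₁, K₂` such that `T + K₁` and `T + K₂` commute and the pair
`(T + K₁, T + K₂)` is invertible. -/
def HasInvertibleLift (T : H →L[ℂ] H) : Prop :=
  ∃ K₁ K₂ : H →L[ℂ] H, IsCompactOperator K₁ ∧ IsCompactOperator K₂ ∧
    Commute (T + K₁) (T + K₂) ∧ KoszulExact (T + K₁) (T + K₂)

end defs

section core

variable {H : Type*} [NormedAddCommGroup H] [InnerProductSpace ℂ H] [CompleteSpace H]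

lemma not_injective (T R : H →L[ℂ] H) (hTR : ∀ x, T (R x) = x) (hker : ∃ x, x ≠ 0 ∧ T x = 0)
    (C : H →L[ℂ] H) (hC : IsCompactOperator C) : ∃ x, x ≠ 0 ∧ T x + C x = 0 := by
  by_contra hcon
  push Not at hcon
  have hRC : IsCompactOperator (R ∘L C) := hC.clm_comp R
  rcases hRC.hasEigenvalue_or_mem_resolventSet (μ := -1) (by norm_num) with h | h
  · obtain ⟨v, hv⟩ := h.exists_hasEigenvector
    have h1 : R (C v) = -v := by
      have := hv.apply_eq_smul
      simpa using this
    refine hcon v hv.2 ?_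
    have h2 := hTR (C v)
    rw [h1, map_neg] at h2
    rw [← h2]; simp
  · obtain ⟨x0, hx0, hTx0⟩ := hker
    rw [spectrum.mem_resolventSet_iff, ContinuousLinearMap.isUnit_iff_bijective] at h
    obtain ⟨y, hy⟩ := h.2 (-x0)
    have hy' : y + R (C y) = x0 := by
      have h3 : -y - R (C y) = -x0 := by
        simpa using hy
      have h4 : y + R (C y) = -(-y - R (C y)) := by abel
      rw [h4, h3, neg_neg]
    have hy0 : y ≠ 0 := by
      rintro rfl
      apply hx0
      rw [← hy']; simp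
    refine hcon y hy0 ?_
    rw [← hTR (C y), ← map_add, hy', hTx0]

lemma finite_ker (T R : H →L[ℂ] H) (hp : IsCompactOperator (1 - R ∘L T : H →L[ℂ] H))
    (C : H →L[ℂ] H) (hC : IsCompactOperator C) :
    FiniteDimensional ℂ ((T + C : H →L[ℂ] H) : H →ₗ[ℂ] H).ker := by
  have hD : IsCompactOperator ((1 - R ∘L T) - R ∘L C : H →L[ℂ] H) := hp.sub (hC.clm_comp R)
  have h := ContinuousLinearMap.finite_dimensional_eigenspace hD 1 one_ne_zero
  refine Submodule.finiteDimensional_of_le (S₂ := Module.End.eigenspace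
    ((1 - R ∘L T) - R ∘L C : H →L[ℂ] H).toLinearMap 1) ?_
  intro x hx
  rw [Module.End.mem_eigenspace_iff, one_smul]
  rw [LinearMap.mem_ker] at hx
  have hx' : T x + C x = 0 := hx
  have h2 : R (T x) + R (C x) = 0 := by rw [← map_add, hx', map_zero]
  change x - R (T x) - R (C x) = x
  rw [sub_sub, h2, sub_zero]

lemma joint (T R : H →L[ℂ] H) (hTR : ∀ x, T (R x) = x) (hker : ∃ x, x ≠ 0 ∧ T x = 0)
    (hp : IsCompactOperator (1 - R ∘L T : H →L[ℂ] H))
    (K₁ K : H →L[ℂ] H) (hK₁ : IsCompactOperator K₁) (hK : IsCompactOperator K)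
    (hcomm : ∀ x, (T + K₁) (K x) = K ((T + K₁) x)) (c : ℂ) :
    ∃ (v : H) (l : ℂ), ‖v‖ = 1 ∧ K v = l • v ∧ (T + K₁) v = -(c * l) • v := by
  have hC : IsCompactOperator (K₁ + c • K : H →L[ℂ] H) := hK₁.add (hK.smul c)
  set V := ((T + (K₁ + c • K) : H →L[ℂ] H) : H →ₗ[ℂ] H).ker with hV
  have hfin : FiniteDimensional ℂ V := finite_ker T R hp _ hC
  have hmem : ∀ x, x ∈ V ↔ (T + K₁) x + c • K x = 0 := by
    intro x
    rw [hV, LinearMap.mem_ker]
    change T x + (K₁ x + c • K x) = 0 ↔ T x + K₁ x + c • K x = 0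
    rw [add_assoc]
  have hnt : Nontrivial V := by
    obtain ⟨x, hx, hx'⟩ := not_injective T R hTR hker _ hC
    refine ⟨⟨⟨x, ?_⟩, 0, ?_⟩⟩
    · rw [hV, LinearMap.mem_ker]; exact hx'
    · intro h
      exact hx (congrArg Subtype.val h)
  have hinv : ∀ x ∈ V, (K : H →ₗ[ℂ] H) x ∈ V := by
    intro x hx
    rw [hmem] at hx ⊢
    change (T + K₁) (K x) + c • K (K x) = 0
    rw [hcomm]
    have : K ((T + K₁) x) + c • K (K x) = K ((T + K₁) x + c • K x) := by
      rw [map_add, map_smul]
    rw [this, hx, map_zero]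
  obtain ⟨l, hl⟩ := Module.End.exists_eigenvalue ((K : H →ₗ[ℂ] H).restrict hinv)
  obtain ⟨w, hw⟩ := hl.exists_hasEigenvector
  have hw0 : (w : H) ≠ 0 := fun h => hw.2 (Subtype.ext h)
  have hKw : K w = l • (w : H) := by
    have := congrArg Subtype.val hw.apply_eq_smul
    exact this
  have hAw : (T + K₁) w = -(c * l) • (w : H) := by
    have h1 := (hmem w).mp w.2
    rw [hKw, smul_smul] at h1
    rw [neg_smul]
    exact eq_neg_of_add_eq_zero_left h1
  have hn : ‖(w : H)‖ ≠ 0 := norm_ne_zero_iff.mpr hw0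
  refine ⟨((‖(w : H)‖⁻¹ : ℝ) : ℂ) • (w : H), l, ?_, ?_, ?_⟩
  · rw [norm_smul, Complex.norm_real, norm_inv, norm_norm, inv_mul_cancel₀ hn]
  · rw [map_smul, hKw, smul_comm]
  · rw [map_smul, hAw, smul_comm]

/-- a compact operator has small diagonal along a subsequence of an orthonormal sequence -/
lemma small_diag (K : H →L[ℂ] H) (hK : IsCompactOperator K) (e : ℕ → H) (he : Orthonormal ℂ e) :
    ∃ φ : ℕ → ℕ, StrictMono φ ∧
      Tendsto (fun k => inner ℂ (e (φ k)) (K (e (φ k)))) atTop (𝓝 0) := by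
  obtain ⟨S, hS, hS'⟩ := hK.image_closedBall_subset_compact 1
  obtain ⟨y, -, φ, hφ, hy⟩ := hS.tendsto_subseq (x := fun n => K (e n))
    (fun n => hS' ⟨e n, by simp [he.1 n], rfl⟩)
  refine ⟨φ, hφ, ?_⟩
  have h1 : Tendsto (fun n => inner ℂ (e n) y) atTop (𝓝 0) := by
    have h2 := (he.inner_products_summable (x := y)).tendsto_atTop_zero
    rw [tendsto_zero_iff_norm_tendsto_zero]
    have h3 := (Real.continuous_sqrt.tendsto 0).comp h2
    rw [Real.sqrt_zero] at h3
    refine h3.congr fun n => ?_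
    rw [Function.comp_apply, Real.sqrt_sq (norm_nonneg _)]
  have h2 : Tendsto (fun k => inner ℂ (e (φ k)) (K (e (φ k)) - y)) atTop (𝓝 0) := by
    have h3 : Tendsto (fun k => ‖K (e (φ k)) - y‖) atTop (𝓝 0) :=
      tendsto_iff_norm_sub_tendsto_zero.mp hy
    rw [tendsto_zero_iff_norm_tendsto_zero]
    refine squeeze_zero (fun k => norm_nonneg _) (fun k => ?_) h3
    refine (norm_inner_le_norm _ _).trans ?_
    rw [he.1, one_mul]
  have h3 := (h1.comp hφ.tendsto_atTop).add h2
  rw [add_zero] at h3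
  refine h3.congr fun k => ?_
  rw [Function.comp_apply, ← inner_add_right]
  congr 1
  abel

/-- joint eigenvectors with distinct ratios: the eigenvalues of `K` tend to `0` on a subsequence -/
lemma eigen_small (A K : H →L[ℂ] H) (hK : IsCompactOperator K) (c l : ℕ → ℂ)
    (hc : Function.Injective c) (v : ℕ → H) (hv : ∀ n, ‖v n‖ = 1) (hKv : ∀ n, K (v n) = l n • v n)
    (hAv : ∀ n, A (v n) = -(c n * l n) • v n) (hl : ∀ n, l n ≠ 0) :
    ∃ φ : ℕ → ℕ, StrictMono φ ∧ Tendsto (fun k => l (φ k)) atTop (𝓝 0) := by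
  classical
  -- operators killing the first vectors
  let P : ℕ → (H →ₗ[ℂ] H) := fun n =>
    Nat.rec LinearMap.id (fun n Q => ((A : H →ₗ[ℂ] H) + c n • (K : H →ₗ[ℂ] H)) ∘ₗ Q) n
  have hP1 : ∀ n, P (n + 1) = ((A : H →ₗ[ℂ] H) + c n • (K : H →ₗ[ℂ] H)) ∘ₗ P n := fun n => rfl
  have hPv : ∀ n i, P n (v i) = (∏ j ∈ Finset.range n, ((c j - c i) * l i)) • v i := by
    intro n i
    induction n with
    | zero => simp [P]
    | succ n ih =>
      rw [hP1, LinearMap.comp_apply, ih, Finset.prod_range_succ, map_smul]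
      have : ((A : H →ₗ[ℂ] H) + c n • (K : H →ₗ[ℂ] H)) (v i) = ((c n - c i) * l i) • v i := by
        change A (v i) + c n • K (v i) = _
        rw [hAv, hKv, smul_smul, ← add_smul]
        congr 1; ring
      rw [this, smul_smul]
  set E : ℕ → Submodule ℂ H := fun n => Submodule.span ℂ (v '' Set.Iio n) with hE
  have hEP : ∀ n, ∀ x ∈ E n, P n x = 0 := by
    intro n x hx
    have : E n ≤ LinearMap.ker (P n) := by
      rw [hE, Submodule.span_le]
      rintro _ ⟨i, hi, rfl⟩
      rw [SetLike.mem_coe, LinearMap.mem_ker, hPv,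
        Finset.prod_eq_zero (Finset.mem_range.mpr hi), zero_smul]
      rw [sub_self, zero_mul]
    exact this hx
  have hvE : ∀ n, v n ∉ E n := by
    intro n hn
    have h1 := hEP n _ hn
    rw [hPv] at h1
    have h2 : (∏ j ∈ Finset.range n, ((c j - c n) * l n)) ≠ 0 := by
      rw [Finset.prod_ne_zero_iff]
      intro j hj
      refine mul_ne_zero (sub_ne_zero.mpr fun h => ?_) (hl n)
      have := hc h
      rw [Finset.mem_range] at hj
      omega
    rcases smul_eq_zero.mp h1 with h | h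
    · exact h2 h
    · have := hv n
      rw [h, norm_zero] at this
      exact zero_ne_one this
  have hKE : ∀ n, ∀ x ∈ E n, K x ∈ E n := by
    intro n x hx
    have : E n ≤ (E n).comap (K : H →ₗ[ℂ] H) := by
      rw [hE, Submodule.span_le]
      rintro _ ⟨i, hi, rfl⟩
      change K (v i) ∈ Submodule.span ℂ (v '' Set.Iio n)
      rw [hKv]
      exact Submodule.smul_mem _ _ (Submodule.subset_span ⟨i, hi, rfl⟩)
    exact this hx
  set g : ℕ → H := InnerProductSpace.gramSchmidt ℂ v with hg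
  have hgv : ∀ n, v n - g n ∈ E n := by
    intro n
    have h1 := InnerProductSpace.gramSchmidt_def'' ℂ v n
    have h2 : v n - g n = ∑ i ∈ Finset.Iio n,
      (inner ℂ (g i) (v n) / (‖g i‖ : ℂ) ^ 2) • g i := by
      rw [sub_eq_iff_eq_add']; exact h1
    rw [h2]
    refine Submodule.sum_mem (E n) fun i hi => Submodule.smul_mem (E n) _ ?_
    have h3 : g i ∈ Submodule.span ℂ (g '' Set.Iio n) :=
      Submodule.subset_span ⟨i, Finset.mem_Iio.mp hi, rfl⟩
    rw [InnerProductSpace.span_gramSchmidt_Iio] at h3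
    exact h3
  have hg0 : ∀ n, g n ≠ 0 := by
    intro n h
    apply hvE n
    have := hgv n
    rwa [h, sub_zero] at this
  have hgE : ∀ n, ∀ x ∈ E n, inner ℂ (g n) x = 0 := by
    intro n x hx
    have h1 : x ∈ Submodule.span ℂ (g '' Set.Iio n) := by
      rw [hg, InnerProductSpace.span_gramSchmidt_Iio]; exact hx
    have h2 : Submodule.span ℂ (g '' Set.Iio n) ≤ (Submodule.span ℂ {g n})ᗮ := by
      rw [Submodule.span_le]
      rintro _ ⟨i, hi, rfl⟩
      rw [SetLike.mem_coe, Submodule.mem_orthogonal_singleton_iff_inner_right]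
      exact InnerProductSpace.gramSchmidt_orthogonal ℂ v (ne_of_gt hi)
    exact Submodule.mem_orthogonal_singleton_iff_inner_right.mp (h2 h1)
  let e : ℕ → H := fun n => ((‖g n‖⁻¹ : ℝ) : ℂ) • g n
  have hne : ∀ n, ‖g n‖ ≠ 0 := fun n => norm_ne_zero_iff.mpr (hg0 n)
  have he : Orthonormal ℂ e := by
    refine ⟨fun n => ?_, fun i j hij => ?_⟩
    · simp only [e]
      rw [norm_smul, Complex.norm_real, norm_inv, norm_norm, inv_mul_cancel₀ (hne n)]
    · simp only [e]
      rw [inner_smul_left, inner_smul_right, InnerProductSpace.gramSchmidt_orthogonal ℂ v hij]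
      simp
  have hdiag : ∀ n, inner ℂ (e n) (K (e n)) = l n := by
    intro n
    have h1 : K (g n) - l n • g n ∈ E n := by
      have h2 : K (g n) - l n • g n = l n • (v n - g n) - K (v n - g n) := by
        rw [map_sub, hKv, smul_sub]; abel
      rw [h2]
      exact Submodule.sub_mem _ (Submodule.smul_mem _ _ (hgv n)) (hKE n _ (hgv n))
    have h2 := hgE n _ h1
    rw [inner_sub_right, inner_smul_right, sub_eq_zero] at h2
    have h3 : inner ℂ (e n) (e n) = (1 : ℂ) := by
      rw [inner_self_eq_norm_sq_to_K, he.1 n]; simp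
    have h4 : inner ℂ (e n) (K (e n)) = l n * inner ℂ (e n) (e n) := by
      simp only [e]
      rw [map_smul, inner_smul_left, inner_smul_right, inner_smul_left, inner_smul_right, h2]
      ring
    rw [h4, h3, mul_one]
  obtain ⟨φ, hφ, h⟩ := small_diag K hK e he
  refine ⟨φ, hφ, h.congr fun k => hdiag _⟩

/-- the core statement -/
theorem common_kernel (T R : H →L[ℂ] H) (hTR : ∀ x, T (R x) = x) (hker : ∃ x, x ≠ 0 ∧ T x = 0)
    (hp : IsCompactOperator (1 - R ∘L T : H →L[ℂ] H))
    (K₁ K₂ : H →L[ℂ] H) (hK₁ : IsCompactOperator K₁) (hK₂ : IsCompactOperator K₂)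
    (hcomm : Commute (T + K₁) (T + K₂)) : ∃ x, x ≠ 0 ∧ (T + K₁) x = 0 ∧ (T + K₂) x = 0 := by
  set K : H →L[ℂ] H := K₂ - K₁ with hKdef
  have hK : IsCompactOperator K := hK₂.sub hK₁
  have hTK : ∀ x, (T + K₂) x = (T + K₁) x + K x := by
    intro x
    change T x + K₂ x = T x + K₁ x + (K₂ x - K₁ x)
    abel
  suffices h : ∃ x, x ≠ 0 ∧ (T + K₁) x = 0 ∧ K x = 0 by
    obtain ⟨x, hx, h1, h2⟩ := h
    exact ⟨x, hx, h1, by rw [hTK, h1, h2, add_zero]⟩
  have hcomm' : ∀ x, (T + K₁) (K x) = K ((T + K₁) x) := by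
    intro x
    have h1 : (T + K₁) ((T + K₂) x) = (T + K₂) ((T + K₁) x) := by
      have := congrArg (fun f : H →L[ℂ] H => f x) hcomm.eq
      exact this
    rw [hTK, hTK, map_add] at h1
    exact add_left_cancel h1
  by_contra hcon
  push Not at hcon
  choose v l hv hKv hAv using
    fun n : ℕ => joint T R hTR hker hp K₁ K hK₁ hK hcomm' (1 / ((n : ℂ) + 1))
  have hv0 : ∀ n, v n ≠ 0 := fun n h => by
    have := hv n
    rw [h, norm_zero] at this
    exact zero_ne_one this
  have hl : ∀ n, l n ≠ 0 := by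
    intro n h
    refine hcon (v n) (hv0 n) ?_ ?_
    · rw [hAv, h, mul_zero, neg_zero, zero_smul]
    · rw [hKv, h, zero_smul]
  have hc : Function.Injective (fun n : ℕ => 1 / ((n : ℂ) + 1)) := by
    intro m n h
    simp only [one_div, inv_inj] at h
    have := add_right_cancel h
    exact_mod_cast this
  obtain ⟨φ, hφ, hlim⟩ := eigen_small (T + K₁) K hK _ l hc v hv hKv hAv hl
  -- `K v → 0` and `A v → 0`
  have hKlim : Tendsto (fun k => K (v (φ k))) atTop (𝓝 0) := by
    rw [tendsto_zero_iff_norm_tendsto_zero]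
    have h1 : Tendsto (fun k => ‖l (φ k)‖) atTop (𝓝 0) :=
      tendsto_zero_iff_norm_tendsto_zero.mp hlim
    refine h1.congr fun k => ?_
    rw [hKv, norm_smul, hv, mul_one]
  have hAlim : Tendsto (fun k => (T + K₁) (v (φ k))) atTop (𝓝 0) := by
    rw [tendsto_zero_iff_norm_tendsto_zero]
    have h1 : Tendsto (fun k => ‖l (φ k)‖) atTop (𝓝 0) :=
      tendsto_zero_iff_norm_tendsto_zero.mp hlim
    refine squeeze_zero (fun k => norm_nonneg _) (fun k => ?_) h1
    rw [hAv, norm_smul, hv, mul_one, norm_neg, norm_mul]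
    have h2 : ‖1 / (((φ k : ℕ) : ℂ) + 1)‖ ≤ 1 := by
      rw [norm_div, norm_one]
      have h3 : ‖((φ k : ℕ) : ℂ) + 1‖ = (φ k : ℝ) + 1 := by
        have : ((φ k : ℕ) : ℂ) + 1 = (((φ k : ℝ) + 1 : ℝ) : ℂ) := by push_cast; ring
        rw [this, Complex.norm_real, Real.norm_eq_abs, abs_of_nonneg (by positivity)]
      rw [h3, div_le_one (by positivity)]
      have := Nat.cast_nonneg (α := ℝ) (φ k)
      linarith
    exact mul_le_of_le_one_left (norm_nonneg _) h2
  -- extract a convergent subsequence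
  have hD : IsCompactOperator ((1 - R ∘L T) - R ∘L K₁ : H →L[ℂ] H) := hp.sub (hK₁.clm_comp R)
  obtain ⟨S, hS, hS'⟩ := hD.image_closedBall_subset_compact 1
  obtain ⟨y, -, ψ, hψ, hy⟩ := hS.tendsto_subseq
    (x := fun k => ((1 - R ∘L T) - R ∘L K₁ : H →L[ℂ] H) (v (φ k)))
    (fun n => hS' ⟨v (φ n), by simp [hv], rfl⟩)
  have hvy : Tendsto (fun k => v (φ (ψ k))) atTop (𝓝 y) := by
    have h1 : Tendsto (fun k => R ((T + K₁) (v (φ (ψ k))))) atTop (𝓝 0) := by
      have := (R.continuous.tendsto 0).comp (hAlim.comp hψ.tendsto_atTop)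
      rw [map_zero] at this
      exact this
    have h2 := hy.add h1
    rw [add_zero] at h2
    refine h2.congr fun k => ?_
    change (v (φ (ψ k)) - R (T (v (φ (ψ k)))) - R (K₁ (v (φ (ψ k))))) +
      R (T (v (φ (ψ k))) + K₁ (v (φ (ψ k)))) = v (φ (ψ k))
    rw [map_add]; abel
  have hy1 : ‖y‖ = 1 := by
    have h1 := hvy.norm
    have h2 : (fun k => ‖v (φ (ψ k))‖) = fun _ => (1 : ℝ) := by funext k; exact hv _
    rw [h2] at h1
    exact (tendsto_nhds_unique h1 tendsto_const_nhds)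
  have hy0 : y ≠ 0 := fun h => by
    rw [h, norm_zero] at hy1
    exact zero_ne_one hy1
  refine hcon y hy0 ?_ ?_
  · exact tendsto_nhds_unique (((T + K₁).continuous.tendsto y).comp hvy)
      (hAlim.comp hψ.tendsto_atTop)
  · exact tendsto_nhds_unique ((K.continuous.tendsto y).comp hvy)
      (hKlim.comp hψ.tendsto_atTop)

end core

section shift

/-- The Hilbert space `ℓ²(ℕ)`. -/
abbrev ell2 : Type := lp (fun _ : ℕ => ℂ) 2

lemma summable_sq (f : ell2) : Summable fun n => ‖f n‖ ^ 2 := by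
  have h := (lp.memℓp f).summable (by norm_num)
  refine h.congr fun n => ?_
  norm_num

lemma memℓp_of {f : ℕ → ℂ} (h : Summable fun n => ‖f n‖ ^ 2) : Memℓp f 2 := by
  refine memℓp_gen ?_
  refine h.congr fun n => ?_
  norm_num

lemma norm_sq_eq (f : ell2) : ‖f‖ ^ 2 = ∑' n, ‖f n‖ ^ 2 := by
  have h := lp.norm_rpow_eq_tsum (p := 2) (by norm_num) f
  norm_num at h
  exact h

/-- the backward shift on sequences -/
noncomputable def bwdFun (f : ell2) : ell2 :=
  ⟨fun n => f (n + 1), memℓp_of ((summable_nat_add_iff 1).mpr (summable_sq f))⟩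

/-- the forward shift on sequences -/
noncomputable def fwdFun (f : ell2) : ell2 :=
  ⟨fun n => if n = 0 then 0 else f (n - 1), memℓp_of (by
    rw [← summable_nat_add_iff 1]
    simpa using summable_sq f)⟩

lemma norm_bwdFun (f : ell2) : ‖bwdFun f‖ ≤ 1 * ‖f‖ := by
  rw [one_mul]
  refine (sq_le_sq₀ (norm_nonneg _) (norm_nonneg _)).mp ?_
  rw [norm_sq_eq, norm_sq_eq]
  have h := (summable_sq f).sum_add_tsum_nat_add 1
  rw [← h]
  have h1 : ∑' n, ‖bwdFun f n‖ ^ 2 = ∑' n, ‖f (n + 1)‖ ^ 2 := rfl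
  rw [h1]
  exact le_add_of_nonneg_left (Finset.sum_nonneg fun i _ => by positivity)

lemma norm_fwdFun (f : ell2) : ‖fwdFun f‖ ≤ 1 * ‖f‖ := by
  rw [one_mul]
  refine (sq_le_sq₀ (norm_nonneg _) (norm_nonneg _)).mp ?_
  rw [norm_sq_eq, norm_sq_eq]
  have h := (summable_sq (fwdFun f)).sum_add_tsum_nat_add 1
  rw [← h]
  have h1 : ∑' n, ‖fwdFun f (n + 1)‖ ^ 2 = ∑' n, ‖f n‖ ^ 2 := by
    refine tsum_congr fun n => ?_
    have : fwdFun f (n + 1) = f n := by
      change (if n + 1 = 0 then 0 else f (n + 1 - 1)) = f n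
      simp
    rw [this]
  have h2 : fwdFun f 0 = 0 := by
    change (if 0 = 0 then 0 else f (0 - 1)) = (0 : ℂ)
    simp
  rw [h1]
  simp [h2]

/-- The backward shift on `ℓ²(ℕ)`. -/
noncomputable def bwd : ell2 →L[ℂ] ell2 :=
  LinearMap.mkContinuous
    { toFun := bwdFun
      map_add' := fun _ _ => rfl
      map_smul' := fun _ _ => rfl } 1 norm_bwdFun

/-- The forward shift on `ℓ²(ℕ)`. -/
noncomputable def fwd : ell2 →L[ℂ] ell2 :=
  LinearMap.mkContinuous
    { toFun := fwdFun
      map_add' := fun f g => by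
        apply lp.ext
        funext n
        change (if n = 0 then 0 else (f + g) (n - 1)) =
          (if n = 0 then 0 else f (n - 1)) + (if n = 0 then 0 else g (n - 1))
        split_ifs
        · simp
        · rfl
      map_smul' := fun c f => by
        apply lp.ext
        funext n
        change (if n = 0 then 0 else (c • f) (n - 1)) =
          c • (if n = 0 then 0 else f (n - 1))
        split_ifs
        · simp
        · rfl } 1 norm_fwdFun

lemma bwd_apply (f : ell2) (n : ℕ) : bwd f n = f (n + 1) := rfl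

lemma fwd_apply (f : ell2) (n : ℕ) : fwd f n = if n = 0 then 0 else f (n - 1) := rfl

lemma bwd_fwd (f : ell2) : bwd (fwd f) = f := by
  apply lp.ext
  funext n
  rw [bwd_apply, fwd_apply]
  simp

/-- the first basis vector -/
noncomputable def e0 : ell2 := lp.single 2 0 (1 : ℂ)

lemma e0_apply (n : ℕ) : e0 n = if n = 0 then 1 else 0 := by
  rw [e0, lp.single_apply]
  by_cases h : n = 0
  · subst h; simp
  · simp [h]

lemma sub_fwd_bwd (f : ell2) : f - fwd (bwd f) = f 0 • e0 := by
  apply lp.ext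
  funext n
  change f n - fwd (bwd f) n = f 0 * e0 n
  rw [fwd_apply, bwd_apply, e0_apply]
  by_cases h : n = 0
  · subst h; simp
  · have : n - 1 + 1 = n := by omega
    simp [h, this]

lemma isCompact_p : IsCompactOperator (1 - fwd ∘L bwd : ell2 →L[ℂ] ell2) := by
  -- the map `c ↦ c • e0` from `ℂ`
  let j : ℂ →L[ℂ] ell2 := (ContinuousLinearMap.id ℂ ℂ).smulRight e0
  let q : ell2 →L[ℂ] ℂ := innerSL ℂ e0
  have h1 : IsCompactOperator (j ∘L q) :=
    (isCompactOperator_of_locallyCompactSpace_rng j).comp_clm q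
  have h2 : (1 - fwd ∘L bwd : ell2 →L[ℂ] ell2) = j ∘L q := by
    ext1 f
    change f - fwd (bwd f) = (inner ℂ e0 f) • e0
    rw [sub_fwd_bwd]
    congr 1
    rw [e0, lp.inner_single_left]
    simp
  rw [h2]
  exact h1

lemma isFredholm_bwd : IsFredholm bwd := by
  have hsurj : Function.Surjective bwd := fun f => ⟨fwd f, bwd_fwd f⟩
  refine ⟨?_, ?_, ?_⟩
  · rw [hsurj.range_eq]; exact isClosed_univ
  · have h := finite_ker bwd fwd isCompact_p 0 (by exact isCompactOperator_zero)
    rwa [add_zero] at h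
  · have : (bwd : ell2 →ₗ[ℂ] ell2).range = ⊤ := LinearMap.range_eq_top.mpr hsurj
    rw [this]
    infer_instance

end shift

/-- There is a Fredholm operator `T` on a complex Hilbert space (the backward shift on `ℓ²(ℕ)`) such
that there are no compact `K₁, K₂` for which `T + K₁` and `T + K₂` commute and the pair
`(T + K₁, T + K₂)` is invertible. -/
theorem result : ∃ (H : Type) (_ : NormedAddCommGroup H) (_ : InnerProductSpace ℂ H)
    (_ : CompleteSpace H) (T : H →L[ℂ] H), IsFredholm T ∧ ¬ HasInvertibleLift T := by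
  refine ⟨ell2, inferInstance, inferInstance, inferInstance, bwd, isFredholm_bwd, ?_⟩
  rintro ⟨K₁, K₂, hK₁, hK₂, hc, hex⟩
  have he0 : e0 ≠ 0 := by
    intro h
    have := congrArg (fun f : ell2 => f 0) h
    simp only [e0_apply] at this
    simp at this
  have hbe0 : bwd e0 = 0 := by
    apply lp.ext
    funext n
    rw [bwd_apply, e0_apply]
    simp
  obtain ⟨x, hx, h1, h2⟩ :=
    common_kernel bwd fwd bwd_fwd ⟨e0, he0, hbe0⟩ isCompact_p K₁ K₂ hK₁ hK₂ hc
  apply hx
  apply hex.1
  simp only [D0]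
  rw [h1, h2, map_zero, map_zero]

end Pool.Agent.Results.MP_b56e9d_an.NotAlways
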